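import Pool.Agent.Helper61.BT.Goals

/-!
# Project BT, coset form: infinitely many elements of `S` in a coset of a finitely generated subgroup

`Γ` is any group, `A` a finitely generated subgroup with a bound on the orders of its finite
subgroups, `f : Γ`, and `S ∩ A f` is infinite. The setting is `W = A P`, where `P` is the set of the
vertices of finitely many paths of the Cayley graph of `Γ` from `1` to the generators of `A` and
to `f`.
-/

set_option autoImplicit false

namespace Pool.Agent.Helper60.BT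

open Pool.Agent.Helper27.VF Pool.Agent.Helper38.VF Pool.Agent.Helper61.BT

universe u

/-- **APC.** The coset form of BT. -/
def ApcStmt : Prop := ∀ (Γ : Type u) [Group Γ] (S : Set Γ), Subgroup.closure S = ⊤ →
  (∀ s ∈ S, s⁻¹ ∈ S) → (1 : Γ) ∉ S → ∀ A : Subgroup Γ, A.FG →
  (∃ N : ℕ, ∀ F : Subgroup Γ, F ≤ A → (F : Set Γ).Finite → Nat.card F ≤ N) →
  ∀ f : Γ, {s | s ∈ S ∧ ∃ a ∈ A, s = a * f}.Infinite →
  ∃ φ : ℕ → Set Γ,
    (∀ i, ((SimpleGraph.fromRel fun a b : Γ => a⁻¹ * b ∈ S).induce (φ i)).Connected) ∧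
    (∀ i j, i ≠ j → Disjoint (φ i) (φ j)) ∧
    ∀ i j, i ≠ j → ∃ a ∈ φ i, ∃ b ∈ φ j,
      (SimpleGraph.fromRel fun a b : Γ => a⁻¹ * b ∈ S).Adj a b

/-- The Cayley graph. -/
def cay {Γ : Type u} [Group Γ] (S : Set Γ) : SimpleGraph Γ :=
  SimpleGraph.fromRel fun a b : Γ => a⁻¹ * b ∈ S

theorem cay_adj {Γ : Type u} [Group Γ] {S : Set Γ} {a b : Γ} :
    (cay S).Adj a b ↔ a ≠ b ∧ (a⁻¹ * b ∈ S ∨ b⁻¹ * a ∈ S) := SimpleGraph.fromRel_adj _ _ _

theorem cay_smul {Γ : Type u} [Group Γ] {S : Set Γ} {a b : Γ} (g : Γ)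
    (h : (cay S).Adj a b) : (cay S).Adj (g * a) (g * b) := by
  rw [cay_adj] at h ⊢
  obtain ⟨h1, h2⟩ := h
  refine ⟨fun h => h1 (mul_left_cancel h), ?_⟩
  have e1 : (g * a)⁻¹ * (g * b) = a⁻¹ * b := by group
  have e2 : (g * b)⁻¹ * (g * a) = b⁻¹ * a := by group
  rw [e1, e2]
  exact h2

theorem cay_reach {Γ : Type u} [Group Γ] {S : Set Γ} {g : Γ} (hg : g ∈ Subgroup.closure S) :
    ∀ y : Γ, (cay S).Reachable y (y * g) := by
  induction hg using Subgroup.closure_induction with
  | mem x hx =>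
    intro y
    by_cases h : x = 1
    · rw [h, mul_one]
    · refine SimpleGraph.Adj.reachable ?_
      rw [cay_adj]
      refine ⟨?_, Or.inl ?_⟩
      · intro h'
        exact h (left_eq_mul.1 h')
      · rw [inv_mul_cancel_left]
        exact hx
  | one => intro y; rw [mul_one]
  | mul x z _ _ hx hz =>
    intro y
    rw [← mul_assoc]
    exact (hx y).trans (hz _)
  | inv x _ hx =>
    intro y
    have := hx (y * x⁻¹)
    rw [inv_mul_cancel_right] at this
    exact this.symm

/-- The action of `A` on an `A`-invariant subset of `Γ`. -/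
@[reducible] def wact {Γ : Type u} [Group Γ] (A : Subgroup Γ) (W : Set Γ)
    (hW : ∀ a ∈ A, ∀ x ∈ W, a * x ∈ W) : MulAction A W where
  smul a x := ⟨(a : Γ) * x, hW a a.2 x x.2⟩
  one_smul x := Subtype.ext (one_mul _)
  mul_smul a b x := Subtype.ext (mul_assoc _ _ _)

/-- The setting. -/
theorem setting {Γ : Type u} [Group Γ] {S : Set Γ} (hS : Subgroup.closure S = ⊤)
    (h1 : (1 : Γ) ∉ S) (A : Subgroup Γ) (hA : A.FG) (f : Γ)
    (hinf : {s | s ∈ S ∧ ∃ a ∈ A, s = a * f}.Infinite) :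
    ∃ (W : Set Γ) (hW : ∀ a ∈ A, ∀ x ∈ W, a * x ∈ W) (h1W : (1 : Γ) ∈ W) (G₀ : SimpleGraph W)
      (p : Ultrafilter W),
      @Stg A W _ (wact A W hW) ((cay S).induce W) G₀ ⟨1, h1W⟩ p := by
  classical
  obtain ⟨T, hT⟩ := hA
  -- paths from 1
  have hreach : ∀ t : Γ, Nonempty ((cay S).Walk 1 t) := fun t => by
    have := cay_reach (S := S) (g := t) (by rw [hS]; trivial) 1
    rwa [one_mul] at this
  have wk : ∀ t : Γ, (cay S).Walk 1 t := fun t => (hreach t).some
  set P : Set Γ := ⋃ t ∈ insert f (T : Set Γ), {x | x ∈ (wk t).support} with hP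
  have hPf : P.Finite := by
    refine Set.Finite.biUnion (T.finite_toSet.insert f) fun t _ => ?_
    exact List.finite_toSet _
  have hmem : ∀ t ∈ insert f (T : Set Γ), ∀ x ∈ (wk t).support, x ∈ P := fun t ht x hx =>
    Set.mem_biUnion ht hx
  have h1P : (1 : Γ) ∈ P := hmem f (Set.mem_insert _ _) _ (SimpleGraph.Walk.start_mem_support _)
  have hfP : f ∈ P := hmem f (Set.mem_insert _ _) _ (SimpleGraph.Walk.end_mem_support _)
  set W : Set Γ := {x | ∃ a ∈ A, ∃ u ∈ P, x = a * u} with hWdef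
  have hW : ∀ a ∈ A, ∀ x ∈ W, a * x ∈ W := by
    rintro a ha _ ⟨b, hb, u, hu, rfl⟩
    exact ⟨a * b, mul_mem ha hb, u, hu, (mul_assoc _ _ _).symm⟩
  have hAW : ∀ a ∈ A, ∀ u ∈ P, a * u ∈ W := fun a ha u hu => ⟨a, ha, u, hu, rfl⟩
  have hPW : ∀ u ∈ P, u ∈ W := fun u hu => by simpa using hAW 1 (one_mem _) u hu
  have hAW1 : ∀ a ∈ A, a ∈ W := fun a ha => by simpa using hAW a ha 1 h1P
  -- the locally finite graph
  set Q : Set Γ := (fun x : Γ × Γ => x.1⁻¹ * x.2) '' (P ×ˢ P) with hQ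
  have hQf : Q.Finite := (hPf.prod hPf).image _
  set G₀ : SimpleGraph W := (cay (S ∩ Q)).induce W with hG₀
  have hadj : ∀ u ∈ P, ∀ v ∈ P, (cay S).Adj u v → (cay (S ∩ Q)).Adj u v := by
    intro u hu v hv huv
    rw [cay_adj] at huv ⊢
    refine ⟨huv.1, huv.2.imp (fun h => ⟨h, ?_⟩) fun h => ⟨h, ?_⟩⟩
    · exact ⟨(u, v), ⟨hu, hv⟩, rfl⟩
    · exact ⟨(v, u), ⟨hv, hu⟩, rfl⟩
  have hwalk : ∀ a ∈ A, ∀ (u v : Γ) (q : (cay S).Walk u v), (∀ x ∈ q.support, x ∈ P) →
      ∀ (hu : a * u ∈ W) (hv : a * v ∈ W), G₀.Reachable ⟨a * u, hu⟩ ⟨a * v, hv⟩ := by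
    intro a ha u v q
    induction q with
    | nil => intro _ hu hv; exact SimpleGraph.Reachable.refl _
    | @cons u v' v h q ih =>
      intro hs hu hv
      have hv'P : v' ∈ P := hs v' (by simp)
      have huP : u ∈ P := hs u (by simp)
      have hv' : a * v' ∈ W := hAW a ha v' hv'P
      refine SimpleGraph.Reachable.trans (v := ⟨a * v', hv'⟩) (SimpleGraph.Adj.reachable ?_)
        (ih (fun x hx => hs x (by simp [hx])) hv' hv)
      exact cay_smul a (hadj u huP v' hv'P h)
  have hAreach : ∀ b ∈ A, ∀ a ∈ A, ∀ (ha : a ∈ W) (hab : a * b ∈ W),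
      G₀.Reachable ⟨a, ha⟩ ⟨a * b, hab⟩ := by
    intro b hb
    rw [← hT] at hb
    induction hb using Subgroup.closure_induction with
    | mem t ht =>
      intro a haA ha hab
      have h := hwalk a haA 1 t (wk t) (fun x hx => hmem t (Set.mem_insert_of_mem _ ht) x hx)
        (by rwa [mul_one]) hab
      have e : (⟨a * 1, by rwa [mul_one]⟩ : W) = ⟨a, ha⟩ := Subtype.ext (mul_one a)
      rwa [e] at h
    | one =>
      intro a haA ha hab
      have e : (⟨a * 1, hab⟩ : W) = ⟨a, ha⟩ := Subtype.ext (mul_one a)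
      rw [e]
    | mul x y hx hy ihx ihy =>
      intro a haA ha hab
      rw [hT] at hx hy
      have hax : a * x ∈ A := mul_mem haA hx
      have h2 := ihy (a * x) hax (hAW1 _ hax) (hAW1 _ (mul_mem hax hy))
      have e : (⟨a * x * y, hAW1 _ (mul_mem hax hy)⟩ : W) = ⟨a * (x * y), hab⟩ :=
        Subtype.ext (mul_assoc _ _ _)
      rw [e] at h2
      exact (ihx a haA ha (hAW1 _ hax)).trans h2
    | inv x hx ihx =>
      intro a haA ha hab
      rw [hT] at hx
      have hax : a * x⁻¹ ∈ A := mul_mem haA (inv_mem hx)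
      have h2 := ihx (a * x⁻¹) hax hab (by rw [inv_mul_cancel_right]; exact ha)
      have e : (⟨a * x⁻¹ * x, by rw [inv_mul_cancel_right]; exact ha⟩ : W) = ⟨a, ha⟩ :=
        Subtype.ext (inv_mul_cancel_right _ _)
      rw [e] at h2
      exact h2.symm
  have h1W : (1 : Γ) ∈ W := hAW1 1 (one_mem _)
  have hone : ∀ x : W, G₀.Reachable ⟨1, h1W⟩ x := by
    rintro ⟨x, hx⟩
    obtain ⟨a, ha, u, hu, rfl⟩ := id hx
    obtain ⟨t, ht, hut⟩ := Set.mem_iUnion₂.1 hu
    have hut' : u ∈ (wk t).support := hut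
    have r1 := hAreach a ha 1 (one_mem _) h1W (by rw [one_mul]; exact hAW1 a ha)
    have e1 : (⟨1 * a, by rw [one_mul]; exact hAW1 a ha⟩ : W) = ⟨a, hAW1 a ha⟩ :=
      Subtype.ext (one_mul a)
    rw [e1] at r1
    have r2 := hwalk a ha 1 u ((wk t).takeUntil u hut')
      (fun x hx => hmem t ht x ((wk t).support_takeUntil_subset_support hut' hx))
      (by rw [mul_one]; exact hAW1 a ha) hx
    have e2 : (⟨a * 1, by rw [mul_one]; exact hAW1 a ha⟩ : W) = ⟨a, hAW1 a ha⟩ :=
      Subtype.ext (mul_one a)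
    rw [e2] at r2
    exact r1.trans r2
  -- the ultrafilter
  set D : Set W := {x | (x : Γ) ∈ S ∧ ∃ a ∈ A, (x : Γ) = a * f} with hD
  have hDinf : D.Infinite := by
    intro hfin
    apply hinf
    refine (hfin.image Subtype.val).subset ?_
    rintro s ⟨hs, a, ha, rfl⟩
    exact ⟨⟨a * f, hAW a ha f hfP⟩, ⟨hs, a, ha, rfl⟩, rfl⟩
  haveI hne : (Filter.cofinite ⊓ Filter.principal D).NeBot :=
    Filter.cofinite_inf_principal_neBot_iff.2 hDinf
  let p : Ultrafilter W := Ultrafilter.of (Filter.cofinite ⊓ Filter.principal D)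
  have hp : (p : Filter W) ≤ Filter.cofinite ⊓ Filter.principal D := Ultrafilter.of_le _
  have hpD : D ∈ p := hp.trans inf_le_right (Filter.mem_principal_self D)
  have hpn : ∀ F : Set W, F.Finite → F ∉ p := by
    intro F hF hFp
    have : Fᶜ ∈ p := hp.trans inf_le_left hF.compl_mem_cofinite
    exact Ultrafilter.compl_mem_iff_notMem.1 this hFp
  refine ⟨W, hW, h1W, G₀, p, ?_⟩
  letI := wact A W hW
  exact
    { free := by
        intro a x hx
        have : (a : Γ) * x = x := congrArg Subtype.val hx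
        exact Subtype.ext (mul_eq_right.1 this)
      fin := by
        refine ⟨{x | (x : Γ) ∈ P}, hPf.preimage Subtype.val_injective.injOn, ?_⟩
        rintro ⟨x, hx⟩
        obtain ⟨a, ha, u, hu, rfl⟩ := id hx
        exact ⟨⟨a, ha⟩, ⟨u, hPW u hu⟩, hu, rfl⟩
      le := by
        intro x y hxy
        have h : (cay (S ∩ Q)).Adj x y := hxy
        change (cay S).Adj x y
        rw [cay_adj] at h ⊢
        exact ⟨h.1, h.2.imp (fun h => h.1) fun h => h.1⟩
      inv := fun a x y h => cay_smul (a : Γ) h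
      inv₀ := fun a x y h => cay_smul (a : Γ) h
      conn := by
        haveI : Nonempty W := ⟨⟨1, h1W⟩⟩
        exact ⟨fun x y => (hone x).symm.trans (hone y)⟩
      lf := by
        intro x
        have hf1 : {y : Γ | (cay (S ∩ Q)).Adj x y}.Finite := by
          refine ((hQf.image fun s => (x : Γ) * s).union
            (hQf.image fun s => (x : Γ) * s⁻¹)).subset ?_
          intro y hy
          have hy' := (cay_adj.1 hy).2
          rcases hy' with h | h
          · left
            exact ⟨_, h.2, by group⟩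
          · right
            exact ⟨_, h.2, by group⟩
        exact hf1.preimage Subtype.val_injective.injOn
      nonp := hpn
      nb := by
        refine Filter.mem_of_superset hpD ?_
        intro x hx
        change (cay S).Adj 1 x
        rw [cay_adj]
        have hxS : (x : Γ) ∈ S := hx.1
        refine ⟨?_, Or.inl (by simpa using hxS)⟩
        intro h
        rw [← h] at hxS
        exact h1 hxS }

/-- **APC.** -/
theorem apc (hI : InbStmt.{u}) (hR : RkbStmt.{u}) (hK : KndStmt.{u}) : ApcStmt.{u} := by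
  classical
  intro Γ _ S hS _ h1 A hA hN f hinf
  obtain ⟨W, hW, h1W, G₀, p, hst⟩ := setting hS h1 A hA f hinf
  letI := wact A W hW
  obtain ⟨N, hN⟩ := hN
  have hFG : Group.FG A := (Group.fg_iff_subgroup_fg A).2 hA
  obtain ⟨T, hT⟩ := Group.fg_iff'.1 hFG
  obtain ⟨F, -, hF⟩ := hT
  have hCon : Con A ((cay S).induce W) p := by
    by_contra hc
    have hD := hI (2 * N * F.card + 1) A W ((cay S).induce W) G₀ ⟨1, h1W⟩ p hst hc
    let e : Fin F.card ≃ F := F.equivFin.symm
    have hcl : Subgroup.closure (Set.range fun i : Fin F.card => ((e i : F) : A)) = ⊤ := by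
      have hr : (Set.range fun i : Fin F.card => ((e i : F) : A)) = (F : Set A) := by
        ext x
        constructor
        · rintro ⟨i, rfl⟩
          exact (e i).2
        · intro hx
          exact ⟨e.symm ⟨x, hx⟩, by simp⟩
      rw [hr, hF]
    have := hR A F.card (2 * N * F.card + 1) N (fun i => ((e i : F) : A)) hcl (by
      intro E hE
      have h2 := hN (E.map A.subtype) (by
        rintro _ ⟨x, _, rfl⟩
        exact x.2) (by
        have := hE.image (fun x : A => (x : Γ))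
        exact this)
      have h3 : Nat.card (E.map A.subtype) = Nat.card E :=
        (Nat.card_congr (E.equivMapOfInjective A.subtype A.subtype_injective).toEquiv).symm
      rwa [h3] at h2) hD
    omega
  obtain ⟨Z, hZ1, hZ2⟩ := hCon
  let w : W := ⟨1, h1W⟩
  have hinj : Function.Injective fun a : A => a • w := by
    intro a b hab
    have h2 : (a : Γ) * 1 = (b : Γ) * 1 := congrArg Subtype.val hab
    rw [mul_one, mul_one] at h2
    exact Subtype.ext h2
  obtain ⟨φ, hφ1, hφ2, hφ3⟩ := hK W ((cay S).induce W) ((fun a : A => a • w) '' Z)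
    (hZ1.image hinj.injOn) (by
      rintro _ ⟨a, ha, rfl⟩ _ ⟨b, hb, rfl⟩ c hc ⟨hx, hy⟩
      exact hZ2 a ha b hb c hc ⟨fact1 hst hc hx, fact1' hst hc hy⟩)
  refine ⟨fun i => Subtype.val '' φ i, ?_, ?_, ?_⟩
  · intro i
    let g : ((cay S).induce W).induce (φ i) →g (cay S).induce (Subtype.val '' φ i) :=
      { toFun := fun x => ⟨(x : W), ⟨x, x.2, rfl⟩⟩
        map_rel' := fun h => h }
    have hg : Function.Surjective g := by
      rintro ⟨_, ⟨x, hx, rfl⟩⟩
      exact ⟨⟨x, hx⟩, rfl⟩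
    exact (hφ1 i).map g hg
  · intro i j hij
    exact (Set.disjoint_image_iff Subtype.val_injective).2 (hφ2 i j hij)
  · intro i j hij
    obtain ⟨a, ha, b, hb, hab⟩ := hφ3 i j hij
    exact ⟨a, ⟨a, ha, rfl⟩, b, ⟨b, hb, rfl⟩, hab⟩

end Pool.Agent.Helper60.BT
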